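import Mathlib

namespace Pool.Agent.Results.MP_814f17_an.Voron

open Finset Nat

/-- The Bernstein basis polynomials on the simplex. -/
noncomputable def W (n : ℕ) (w : ℂ × ℂ) (k j : ℕ) : ℂ :=
  (n ! : ℂ) / (k ! * j ! * (n - k - j) !) * w.1 ^ k * w.2 ^ j * (1 - w.1 - w.2) ^ (n - k - j)

/-- The bivariate Bernstein polynomial on the simplex. -/
noncomputable def B (n : ℕ) (f : ℂ × ℂ → ℂ) (w : ℂ × ℂ) : ℂ :=
  ∑ k ∈ range (n + 1), ∑ j ∈ range (n + 1 - k), W n w k j * f (k / n, j / n)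

/-- Second derivative in the first variable. -/
noncomputable def f11 (f : ℂ × ℂ → ℂ) (w : ℂ × ℂ) : ℂ := deriv (deriv fun t => f (t, w.2)) w.1

/-- Mixed second derivative. -/
noncomputable def f12 (f : ℂ × ℂ → ℂ) (w : ℂ × ℂ) : ℂ :=
  deriv (fun s => deriv (fun t => f (t, s)) w.1) w.2

/-- Second derivative in the second variable. -/
noncomputable def f22 (f : ℂ × ℂ → ℂ) (w : ℂ × ℂ) : ℂ := deriv (deriv fun s => f (w.1, s)) w.2

/-- The remainder `E_n(f)`. -/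
noncomputable def E (n : ℕ) (f : ℂ × ℂ → ℂ) (w : ℂ × ℂ) : ℂ :=
  B n f w - f w - 1 / (2 * n) *
    (w.1 * (1 - w.1) * f11 f w - 2 * w.1 * w.2 * f12 f w + w.2 * (1 - w.2) * f22 f w)

lemma stir (k : ℕ) : ∃ S : ℕ → ℕ, S 0 = 1 ∧ (S 1 : ℝ) = k * (k - 1) / 2 ∧ (∀ i, k < i → S i = 0) ∧
    ∀ x : ℕ, x ^ k = ∑ i ∈ range (k + 2), S i * x.descFactorial (k - i) := by
  induction k with
  | zero =>
    exact ⟨fun i => if i = 0 then 1 else 0, by simp, by simp, fun i hi => by simp [hi.ne'],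
      by simp⟩
  | succ k ih =>
    obtain ⟨S, h0, h1, h2, h3⟩ := ih
    refine ⟨fun i => Nat.casesOn i 1 fun i => S (i + 1) + (k - i) * S i, rfl, ?_, ?_, fun x => ?_⟩
    · simp [h0, h1]
      ring
    · rintro (_ | i) hi
      · omega
      · simp [h2 i (by omega), h2 (i + 1) (by omega)]
    have e : ∀ p, x.descFactorial p * x = x.descFactorial (p + 1) + p * x.descFactorial p :=
      fun p => by
        rcases le_or_gt p x with h | h
        · rw [descFactorial_succ, ← add_mul, Nat.sub_add_cancel h, mul_comm]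
        · simp [descFactorial_of_lt h]
    have e2 : ∑ i ∈ range (k + 2), S i * x.descFactorial (k - i + 1) =
        ∑ i ∈ range (k + 2), S (i + 1) * x.descFactorial (k - i) + x.descFactorial (k + 1) := by
      have := sum_range_succ' (fun i => S i * x.descFactorial (k + 1 - i)) (k + 2)
      simp only [Nat.add_sub_add_right, h0, one_mul, Nat.sub_zero] at this
      rw [← this, sum_range_succ _ (k + 2), h2 (k + 2) (by omega), zero_mul, add_zero]
      refine sum_congr rfl fun i _ => ?_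
      rcases le_or_gt i k with h | h
      · rw [Nat.sub_add_comm h]
      · simp [h2 i h]
    rw [sum_range_succ', pow_succ, h3, sum_mul]
    simp only [Nat.add_sub_add_right, Nat.rec_zero, Nat.sub_zero, mul_assoc, e, mul_add, add_mul,
      sum_add_distrib, e2, mul_left_comm]
    ring

/-- The `u`-th derivative of `t ^ k`. -/
noncomputable def D (k u : ℕ) (t : ℂ) : ℂ := k.descFactorial u * t ^ (k - u)

lemma dd (k u : ℕ) (t : ℂ) : HasDerivAt (D k u) (D k (u + 1) t) t := by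
  refine ((hasDerivAt_pow (k - u) t).const_mul (k.descFactorial u : ℂ)).congr_deriv ?_
  simp only [D, descFactorial_succ, Nat.sub_sub]
  push_cast
  ring

lemma tri (n p q : ℕ) (x y z : ℂ) : ∑ a ∈ range (n + 1), ∑ b ∈ range (n + 1 - a),
    (n.choose a * (n - a).choose b * z ^ (n - a - b)) * D a p x * D b q y =
      D n (p + q) (x + (y + z)) := by
  induction q generalizing y with
  | zero =>
    induction p generalizing x with
    | zero =>
      simp only [D, add_pow, add_zero, descFactorial_zero, Nat.sub_zero, mul_sum, sum_mul]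
      refine sum_congr rfl fun a ha => sum_congr ?_ fun b _ => by push_cast; ring
      rw [Nat.sub_add_comm (by simpa [Nat.lt_succ_iff] using ha)]
    | succ p ih =>
      refine HasDerivAt.unique (HasDerivAt.fun_sum fun a _ => HasDerivAt.fun_sum fun b _ =>
        ((dd a p x).const_mul _).mul_const _) ?_
      simp only [ih]
      exact (dd n p _).comp_add_const x (y + z)
  | succ q ih =>
    refine HasDerivAt.unique (HasDerivAt.fun_sum fun a _ => HasDerivAt.fun_sum fun b _ =>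
      (dd b q y).const_mul _) ?_
    simp only [ih]
    exact ((dd n (p + q) _).comp_const_add x (y + z)).comp_add_const y z

lemma Dmul (a p : ℕ) (x : ℂ) : D a p x * x ^ p = a.descFactorial p * x ^ a := by
  rcases le_or_gt p a with h | h
  · rw [D, mul_assoc, ← pow_add, Nat.sub_add_cancel h]
  · simp [D, descFactorial_of_lt h]

lemma fall (n p q : ℕ) (x y : ℂ) : ∑ a ∈ range (n + 1), ∑ b ∈ range (n + 1 - a),
    W n (x, y) a b * (a.descFactorial p * b.descFactorial q) =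
      n.descFactorial (p + q) * (x ^ p * y ^ q) := by
  have := tri n p q x y (1 - x - y)
  rw [show x + (y + (1 - x - y)) = 1 by ring, D, one_pow, mul_one] at this
  rw [← this, sum_mul]
  refine sum_congr rfl fun a ha => ?_
  rw [sum_mul]
  refine sum_congr rfl fun b hb => ?_
  rw [mem_range] at ha hb
  have h1 : (n ! : ℂ) / (a ! * b ! * (n - a - b) !) = n.choose a * (n - a).choose b := by
    rw [Nat.cast_choose ℂ (by omega : a ≤ n), Nat.cast_choose ℂ (by omega : b ≤ n - a)]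
    have : ∀ m : ℕ, (m ! : ℂ) ≠ 0 := fun m => by exact_mod_cast m.factorial_ne_zero
    field_simp [this]
  simp only [W, h1]
  linear_combination
    -(n.choose a * (n - a).choose b * (1 - x - y) ^ (n - a - b)) *
      ((D b q y * y ^ q) * Dmul a p x + (a.descFactorial p * x ^ a) * Dmul b q y)

lemma mono (n k j : ℕ) {S T : ℕ → ℕ}
    (hS : ∀ x : ℕ, x ^ k = ∑ i ∈ range (k + 2), S i * x.descFactorial (k - i))
    (hT : ∀ x : ℕ, x ^ j = ∑ i ∈ range (j + 2), T i * x.descFactorial (j - i)) (x y : ℂ) :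
    B n (fun v => v.1 ^ k * v.2 ^ j) (x, y) = ∑ r ∈ range (k + 2) ×ˢ range (j + 2),
      ((S r.1 * T r.2 * n.descFactorial (k - r.1 + (j - r.2)) / n ^ (k + j) : ℝ) : ℂ) *
        (x ^ (k - r.1) * y ^ (j - r.2)) := by
  have e : ∀ a b : ℕ, ((a : ℂ) / n) ^ k * ((b : ℂ) / n) ^ j =
      ∑ r ∈ range (k + 2) ×ˢ range (j + 2), (S r.1 * T r.2 / n ^ (k + j) : ℂ) *
        (a.descFactorial (k - r.1) * b.descFactorial (j - r.2)) := fun a b => by
    rw [div_pow, div_pow, ← Nat.cast_pow, ← Nat.cast_pow b, hS a, hT b, _root_.div_mul_div_comm]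
    push_cast
    rw [sum_mul_sum, ← sum_product', sum_div]
    exact sum_congr rfl fun r _ => by ring
  simp only [B, e, mul_sum]
  rw [sum_congr rfl fun a _ => sum_comm, sum_comm]
  refine sum_congr rfl fun r _ => ?_
  rw [sum_congr rfl fun a _ => (sum_congr rfl fun b _ => mul_left_comm _ _ _).trans
    (mul_sum _ _ _).symm, ← mul_sum, fall]
  push_cast
  ring

/-- `n (n-1) ⋯ (n-m+1) / n ^ m`. -/
noncomputable def al (n m : ℕ) : ℝ := n.descFactorial m / n ^ m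

/-- `m (m-1) / (2 n)`. -/
noncomputable def sg (n m : ℕ) : ℝ := m * (m - 1) / 2 / n

lemma sg_succ (n m : ℕ) : sg n (m + 1) = sg n m + m / n := by
  simp only [sg]
  push_cast
  ring

lemma sg_mono (n : ℕ) : Monotone (sg n) := monotone_nat_of_le_succ fun m => by
  rw [sg_succ]
  exact le_add_of_nonneg_right (by positivity)

lemma sg_nonneg (n m : ℕ) : 0 ≤ sg n m := by simpa [sg] using sg_mono n m.zero_le

lemma aa {n : ℕ} (hn : 1 ≤ n) (m : ℕ) : 0 ≤ al n m ∧ al n m ≤ 1 ∧ 1 - al n m ≤ sg n m ∧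
    al n m - 1 + sg n m ≤ sg n m ^ 2 := by
  have n0 : (0 : ℝ) < n := by exact_mod_cast hn
  refine ⟨by unfold al; positivity, ?_⟩
  induction m with
  | zero => simp [al, sg]
  | succ m ih =>
    have e : al n (m + 1) = al n m * (1 - m / n) := by
      rcases le_or_gt m n with h | h
      · simp only [al, descFactorial_succ, Nat.cast_mul, Nat.cast_sub h]
        field_simp
        ring
      · simp [al, descFactorial_of_lt h]
    have a0 : 0 ≤ al n m := by unfold al; positivity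
    have t0 : (0 : ℝ) ≤ m / n := by positivity
    have s0 := sg_nonneg n m
    obtain ⟨h1, h2, h3⟩ := ih
    rw [e, sg_succ]
    refine ⟨by nlinarith, by nlinarith, by nlinarith⟩

lemma one {n : ℕ} (hn : 1 ≤ n) (k j : ℕ) :
    (k * (k - 1) / 2 : ℝ) * n.descFactorial (k - 1 + j) / n ^ (k + j) =
      sg n k * al n (k - 1 + j) := by
  have n0 : (0 : ℝ) < n := by exact_mod_cast hn
  rcases k with _ | k
  · simp [sg]
  · simp only [sg, al, Nat.add_sub_cancel]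
    field_simp
    ring

lemma peel {M : Type} [AddCommMonoid M] (k j : ℕ) (F : ℕ × ℕ → M) :
    ∑ r ∈ range (k + 2) ×ˢ range (j + 2), F r =
      ∑ r ∈ (range (k + 2) ×ˢ range (j + 2)) \ {(0, 0), (1, 0), (0, 1)}, F r +
        (F (0, 0) + (F (1, 0) + F (0, 1))) := by
  rw [← sum_sdiff (s₁ := {(0, 0), (1, 0), (0, 1)}) (by simp [subset_iff]),
    sum_insert (by simp), sum_pair (by simp)]

lemma est {n : ℕ} (hn : 1 ≤ n) (k j : ℕ) {x y : ℂ} {r s : ℝ} (hr : 1 ≤ r) (hs : 1 ≤ s)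
    (hx : ‖x‖ ≤ r) (hy : ‖y‖ ≤ s) :
    ‖B n (fun v => v.1 ^ k * v.2 ^ j) (x, y) - x ^ k * y ^ j - 1 / (2 * n) *
      (x * (1 - x) * (D k 2 x * D j 0 y) - 2 * x * y * (D k 1 x * D j 1 y) +
        y * (1 - y) * (D k 0 x * D j 2 y))‖ ≤
      7 / n ^ 2 * ((k + j + 1) ^ 4 * (r ^ k * s ^ j)) := by
  have n0 : (0 : ℝ) < n := by exact_mod_cast hn
  obtain ⟨S, S0, S1, -, hS⟩ := stir k
  obtain ⟨T, T0, T1, -, hT⟩ := stir j
  have d2 : ∀ (m : ℕ) (t : ℂ), t * (1 - t) * D m 2 t = m * (m - 1) * (t ^ (m - 1) - t ^ m) :=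
    fun m t => by
      rcases m with _ | _ | m <;> simp [D, descFactorial_succ]
      ring
  have d1 : ∀ (m : ℕ) (t : ℂ), t * D m 1 t = m * t ^ m := fun m t => by
    rw [mul_comm, ← pow_one t, pow_one t, ← pow_one t]
    simpa using Dmul m 1 t
  have d0 : ∀ (m : ℕ) (t : ℂ), D m 0 t = t ^ m := fun m t => by simp [D]
  have pw : ∀ p ≤ k, ∀ q ≤ j, ‖x ^ p * y ^ q‖ ≤ r ^ k * s ^ j := fun p hp q hq => by
    rw [norm_mul, norm_pow, norm_pow]
    exact mul_le_mul ((pow_le_pow_left₀ (norm_nonneg _) hx _).trans (pow_le_pow_right₀ hr hp))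
      ((pow_le_pow_left₀ (norm_nonneg _) hy _).trans (pow_le_pow_right₀ hs hq)) (by positivity)
      (by positivity)
  have tot : ∑ u ∈ range (k + 2) ×ˢ range (j + 2), (S u.1 * n.descFactorial (k - u.1) / n ^ k : ℝ) *
      (T u.2 * n.descFactorial (j - u.2) / n ^ j) = 1 := by
    rw [sum_product' (f := fun a b => (S a * n.descFactorial (k - a) / n ^ k : ℝ) *
      (T b * n.descFactorial (j - b) / n ^ j)), ← sum_mul_sum, ← sum_div, ← sum_div]
    have h1 := congrArg (Nat.cast (R := ℝ)) (hS n)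
    have h2 := congrArg (Nat.cast (R := ℝ)) (hT n)
    push_cast at h1 h2
    rw [← h1, ← h2]
    field_simp
  have o1 := one hn k 0
  have o2 := one hn j 0
  have o3 := one hn k j
  have o4 := one hn j k
  rw [add_comm j k, add_comm (j - 1) k] at o4
  rw [mono n k j hS hT, peel]
  rw [peel] at tot
  simp only [S0, S1, T0, T1, Nat.sub_zero, add_zero, Nat.cast_one, one_mul, mul_one, o3,
    o4] at tot o1 o2 ⊢
  rw [o1, o2] at tot
  set R := (range (k + 2) ×ˢ range (j + 2)) \ {(0, 0), (1, 0), (0, 1)}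
  set Q := ∑ u ∈ R, ((S u.1 * T u.2 * n.descFactorial (k - u.1 + (j - u.2)) / n ^ (k + j) : ℝ) : ℂ) *
    (x ^ (k - u.1) * y ^ (j - u.2)) with hQ
  have hQ' : ‖Q‖ ≤ (∑ u ∈ R, (S u.1 * n.descFactorial (k - u.1) / n ^ k : ℝ) *
      (T u.2 * n.descFactorial (j - u.2) / n ^ j)) * (r ^ k * s ^ j) := by
    rw [sum_mul]
    refine norm_sum_le_of_le _ fun u _ => ?_
    rw [norm_mul, Complex.norm_real, Real.norm_of_nonneg (by positivity)]
    refine mul_le_mul ?_ (pw _ (Nat.sub_le _ _) _ (Nat.sub_le _ _)) (by positivity) (by positivity)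
    have : n.descFactorial (k - u.1 + (j - u.2)) ≤
        n.descFactorial (j - u.2) * n.descFactorial (k - u.1) := by
      rw [← descFactorial_mul_descFactorial (Nat.le_add_right (k - u.1) (j - u.2)),
        Nat.add_sub_cancel_left]
      exact Nat.mul_le_mul_right _ (descFactorial_le _ (Nat.sub_le _ _))
    rw [_root_.div_mul_div_comm, ← pow_add, mul_mul_mul_comm, mul_comm (n.descFactorial _ : ℝ)]
    gcongr
    exact_mod_cast this
  have key : Q + (((n.descFactorial (k + j) / n ^ (k + j) : ℝ) : ℂ) * (x ^ k * y ^ j) +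
      (((sg n k * al n (k - 1 + j) : ℝ) : ℂ) * (x ^ (k - 1) * y ^ j) +
        ((sg n j * al n (k + (j - 1)) : ℝ) : ℂ) * (x ^ k * y ^ (j - 1)))) - x ^ k * y ^ j -
      1 / (2 * n) * (x * (1 - x) * (D k 2 x * D j 0 y) - 2 * x * y * (D k 1 x * D j 1 y) +
        y * (1 - y) * (D k 0 x * D j 2 y)) =
      Q + ((al n (k + j) - 1 + sg n (k + j) : ℝ) : ℂ) * (x ^ k * y ^ j) -
        ((sg n k * (1 - al n (k - 1 + j)) : ℝ) : ℂ) * (x ^ (k - 1) * y ^ j) -
        ((sg n j * (1 - al n (k + (j - 1))) : ℝ) : ℂ) * (x ^ k * y ^ (j - 1)) := by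
    rw [d0, d0, ← al]
    simp only [sg]
    push_cast
    linear_combination -(1 / (2 * n : ℂ)) * (y ^ j * d2 k x + x ^ k * d2 j y -
      2 * (y * D j 1 y) * d1 k x - 2 * (k * x ^ k) * d1 j y)
  rw [key]
  rw [← al, ← al] at tot
  obtain ⟨a1, a2, a3, a4⟩ := aa hn (k + j)
  obtain ⟨b1, b2, b3, -⟩ := aa hn (k - 1 + j)
  obtain ⟨c1, c2, c3, -⟩ := aa hn (k + (j - 1))
  obtain ⟨e1, e2, e3, -⟩ := aa hn k
  obtain ⟨g1, g2, g3, -⟩ := aa hn j
  obtain ⟨i1, i2, i3, -⟩ := aa hn (k - 1)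
  obtain ⟨l1, l2, l3, -⟩ := aa hn (j - 1)
  have m1 := sg_mono n (by omega : k - 1 + j ≤ k + j)
  have m2 := sg_mono n (by omega : k + (j - 1) ≤ k + j)
  have m3 := sg_mono n (by omega : k ≤ k + j)
  have m4 := sg_mono n (by omega : j ≤ k + j)
  have m5 := sg_mono n (by omega : k - 1 ≤ k + j)
  have m6 := sg_mono n (by omega : j - 1 ≤ k + j)
  have z1 := sg_nonneg n k
  have z2 := sg_nonneg n j
  have sb : sg n (k + j) ^ 2 ≤ (k + j + 1) ^ 4 / n ^ 2 := by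
    rw [show ((k + j + 1) ^ 4 / n ^ 2 : ℝ) = ((k + j + 1) ^ 2 / n) ^ 2 by ring]
    refine pow_le_pow_left₀ (sg_nonneg _ _) ?_ _
    rw [sg]
    push_cast
    gcongr
    nlinarith [k.cast_nonneg (α := ℝ), j.cast_nonneg (α := ℝ)]
  generalize sg n (k + j) = σ at *
  have nm : ∀ (c : ℝ) p q, 0 ≤ c → c ≤ σ ^ 2 → p ≤ k → q ≤ j →
      ‖(c : ℂ) * (x ^ p * y ^ q)‖ ≤ σ ^ 2 * (r ^ k * s ^ j) := fun c p q c0 c1 hp hq => by
    rw [norm_mul, Complex.norm_real, Real.norm_of_nonneg c0]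
    exact mul_le_mul c1 (pw p hp q hq) (by positivity) (by positivity)
  have t1 := nm _ k j (by linarith) a4 le_rfl le_rfl
  have t2 := nm (sg n k * (1 - al n (k - 1 + j))) (k - 1) j (by nlinarith) (by nlinarith)
    (by omega) le_rfl
  have t3 := nm (sg n j * (1 - al n (k + (j - 1)))) k (j - 1) (by nlinarith) (by nlinarith)
    le_rfl (by omega)
  have pr : ∀ a b : ℝ, a ≤ 1 → b ≤ 1 → a + b - 1 ≤ a * b := fun a b h1 h2 => by nlinarith
  have q1 := pr _ _ e2 g2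
  have q2 := mul_le_mul_of_nonneg_left ((by linarith : 1 - 2 * σ ≤ _).trans (pr _ _ i2 g2)) z1
  have q3 := mul_le_mul_of_nonneg_left ((by linarith : 1 - 2 * σ ≤ _).trans (pr _ _ e2 l2)) z2
  have t4 : ‖Q‖ ≤ 4 * σ ^ 2 * (r ^ k * s ^ j) :=
    hQ'.trans (mul_le_mul_of_nonneg_right (by nlinarith) (by positivity))
  refine ((norm_sub_le _ _).trans (add_le_add ((norm_sub_le _ _).trans (add_le_add
    ((norm_add_le _ _).trans (add_le_add t4 t1)) t2)) t3)).trans ?_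
  have := mul_le_mul_of_nonneg_right sb (by positivity : 0 ≤ r ^ k * s ^ j)
  calc _ = 7 * (σ ^ 2 * (r ^ k * s ^ j)) := by ring
    _ ≤ 7 * ((k + j + 1) ^ 4 / n ^ 2 * (r ^ k * s ^ j)) := by gcongr
    _ = _ := by ring

lemma Dle (k u : ℕ) {t : ℂ} {r : ℝ} (hr : 1 ≤ r) (ht : ‖t‖ ≤ r) : ‖D k u t‖ ≤ k ^ u * r ^ k := by
  rw [D, norm_mul, norm_pow, Complex.norm_natCast]
  exact mul_le_mul (by exact_mod_cast descFactorial_le_pow k u)
    ((pow_le_pow_left₀ (norm_nonneg _) ht _).trans (pow_le_pow_right₀ hr (Nat.sub_le _ _)))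
    (by positivity) (by positivity)

section Series

variable {R₁ R₂ : ℝ} {a : ℕ × ℕ → ℂ} {f : ℂ × ℂ → ℂ}
  (hf : ∀ w : ℂ × ℂ, ‖w.1‖ < R₁ → ‖w.2‖ < R₂ →
    HasSum (fun p : ℕ × ℕ => a p * w.1 ^ p.1 * w.2 ^ p.2) (f w))
include hf

lemma summ (d : ℕ) {r s : ℝ} (hr : 1 ≤ r) (hr' : r < R₁) (hs : 1 ≤ s) (hs' : s < R₂) :
    Summable fun p : ℕ × ℕ => ‖a p‖ * ((p.1 + p.2 + 1) ^ d * (r ^ p.1 * s ^ p.2)) := by
  obtain ⟨l, l1, l2⟩ := exists_between (lt_min ((one_lt_div (by linarith)).2 hr')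
    ((one_lt_div (by linarith)).2 hs'))
  rw [lt_min_iff, lt_div_iff₀ (by linarith), lt_div_iff₀ (by linarith)] at l2
  obtain ⟨C, hC⟩ := (tendsto_pow_const_div_const_pow_of_one_lt d l1).bddAbove_range
  have h := (hf ((l * r : ℝ), (l * s : ℝ))
    (by rw [Complex.norm_real, Real.norm_of_nonneg (by positivity)]; exact l2.1)
    (by rw [Complex.norm_real, Real.norm_of_nonneg (by positivity)]; exact l2.2)).summable.norm
  refine Summable.of_nonneg_of_le (fun p => by positivity) (fun p => ?_) (h.mul_left (C * l))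
  have := hC ⟨p.1 + p.2 + 1, rfl⟩
  simp only at this
  rw [div_le_iff₀ (by positivity)] at this
  push_cast at this
  rw [norm_mul, norm_mul, norm_pow, norm_pow, Complex.norm_real, Complex.norm_real,
    Real.norm_of_nonneg (by positivity), Real.norm_of_nonneg (by positivity)]
  calc _ ≤ ‖a p‖ * (C * l ^ (p.1 + p.2 + 1) * (r ^ p.1 * s ^ p.2)) := by gcongr
    _ = _ := by ring

omit hf in
lemma bd (u v : ℕ) {r s : ℝ} (hr : 1 ≤ r) (hs : 1 ≤ s) {x y : ℂ} (hx : ‖x‖ ≤ r) (hy : ‖y‖ ≤ s)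
    (p : ℕ × ℕ) : ‖a p * (D p.1 u x * D p.2 v y)‖ ≤
      ‖a p‖ * ((p.1 + p.2 + 1) ^ (u + v) * (r ^ p.1 * s ^ p.2)) := by
  rw [norm_mul, norm_mul, pow_add, mul_mul_mul_comm]
  have h1 := p.1.cast_nonneg (α := ℝ)
  have h2 := p.2.cast_nonneg (α := ℝ)
  gcongr
  · exact (Dle _ _ hr hx).trans (by gcongr; linarith)
  · exact (Dle _ _ hs hy).trans (by gcongr; linarith)

omit hf in
lemma rad {R : ℝ} (h : 1 < R) {x : ℂ} (hx : ‖x‖ < R) : ∃ r, 1 ≤ r ∧ r < R ∧ ‖x‖ < r := by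
  obtain ⟨r, h1, h2⟩ := exists_between (max_lt h hx)
  exact ⟨r, ((le_max_left _ _).trans h1.le), h2, (le_max_right _ _).trans_lt h1⟩

variable (h₁ : 1 < R₁) (h₂ : 1 < R₂)
include h₁ h₂

lemma sm (u v : ℕ) {x y : ℂ} (hx : ‖x‖ < R₁) (hy : ‖y‖ < R₂) :
    Summable fun p : ℕ × ℕ => a p * (D p.1 u x * D p.2 v y) := by
  obtain ⟨r, r1, r2, r3⟩ := rad h₁ hx
  obtain ⟨s, s1, s2, s3⟩ := rad h₂ hy
  exact .of_norm_bounded (summ hf _ r1 r2 s1 s2) (bd u v r1 s1 r3.le s3.le)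

lemma dx (u v : ℕ) {x y : ℂ} (hx : ‖x‖ < R₁) (hy : ‖y‖ < R₂) :
    HasDerivAt (fun t => ∑' p : ℕ × ℕ, a p * (D p.1 u t * D p.2 v y))
      (∑' p : ℕ × ℕ, a p * (D p.1 (u + 1) x * D p.2 v y)) x := by
  obtain ⟨r, r1, r2, r3⟩ := rad h₁ hx
  obtain ⟨s, s1, s2, s3⟩ := rad h₂ hy
  exact hasDerivAt_tsum_of_isPreconnected (summ hf _ r1 r2 s1 s2) Metric.isOpen_ball
    (convex_ball 0 r).isPreconnected (fun p t _ => ((dd p.1 u t).mul_const _).const_mul _)
    (fun p t ht => bd (u + 1) v r1 s1 (mem_ball_zero_iff.1 ht).le s3.le p)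
    (mem_ball_zero_iff.2 r3) (sm hf h₁ h₂ u v hx hy) (mem_ball_zero_iff.2 r3)

lemma dy (u v : ℕ) {x y : ℂ} (hx : ‖x‖ < R₁) (hy : ‖y‖ < R₂) :
    HasDerivAt (fun t => ∑' p : ℕ × ℕ, a p * (D p.1 u x * D p.2 v t))
      (∑' p : ℕ × ℕ, a p * (D p.1 u x * D p.2 (v + 1) y)) y := by
  obtain ⟨r, r1, r2, r3⟩ := rad h₁ hx
  obtain ⟨s, s1, s2, s3⟩ := rad h₂ hy
  exact hasDerivAt_tsum_of_isPreconnected (summ hf _ r1 r2 s1 s2) Metric.isOpen_ball
    (convex_ball 0 s).isPreconnected (fun p t _ => ((dd p.2 v t).const_mul _).const_mul _)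
    (fun p t ht => bd u (v + 1) r1 s1 r3.le (mem_ball_zero_iff.1 ht).le p)
    (mem_ball_zero_iff.2 s3) (sm hf h₁ h₂ u v hx hy) (mem_ball_zero_iff.2 s3)

end Series

lemma der {R : ℝ} {g G G' : ℂ → ℂ} (h : ∀ t, ‖t‖ < R → g t = G t)
    (h' : ∀ t, ‖t‖ < R → HasDerivAt G (G' t) t) (t : ℂ) (ht : ‖t‖ < R) : deriv g t = G' t := by
  refine ((h' t ht).congr_of_eventuallyEq ?_).deriv
  filter_upwards [(isOpen_lt continuous_norm continuous_const).mem_nhds ht] with s hs using h s hs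

theorem result (R₁ R₂ : ℝ) (h₁ : 1 < R₁) (h₂ : 1 < R₂) (a : ℕ × ℕ → ℂ) (f : ℂ × ℂ → ℂ)
    (hf : ∀ w : ℂ × ℂ, ‖w.1‖ < R₁ → ‖w.2‖ < R₂ →
      HasSum (fun p : ℕ × ℕ => a p * w.1 ^ p.1 * w.2 ^ p.2) (f w))
    (ρ₁ ρ₂ : ℝ) (r1 : 1 ≤ ρ₁) (r2 : ρ₁ < R₁) (s1 : 1 ≤ ρ₂) (s2 : ρ₂ < R₂) :
    ∃ C : ℝ, ∀ n ≥ 1, ∀ w : ℂ × ℂ, ‖w.1‖ ≤ ρ₁ → ‖w.2‖ ≤ ρ₂ → ‖E n f w‖ ≤ C / (n : ℝ) ^ 2 := by
  have S4 := summ hf 4 r1 r2 s1 s2
  refine ⟨7 * ∑' p : ℕ × ℕ, ‖a p‖ * ((p.1 + p.2 + 1) ^ 4 * (ρ₁ ^ p.1 * ρ₂ ^ p.2)), ?_⟩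
  rintro n hn ⟨x, y⟩ hx hy
  have hx' : ‖x‖ < R₁ := hx.trans_lt r2
  have hy' : ‖y‖ < R₂ := hy.trans_lt s2
  have e0 : ∀ t s, ‖t‖ < R₁ → ‖s‖ < R₂ → f (t, s) = ∑' p : ℕ × ℕ, a p * (D p.1 0 t * D p.2 0 s) :=
    fun t s ht hs => by simpa [D, mul_assoc] using (hf (t, s) ht hs).tsum_eq.symm
  have e1 : ∀ s, ‖s‖ < R₂ → ∀ t, ‖t‖ < R₁ → deriv (fun t => f (t, s)) t = _ := fun s hs =>
    der (fun t ht => e0 t s ht hs) fun t ht => dx hf h₁ h₂ 0 0 ht hs
  have e2 : ∀ s, ‖s‖ < R₂ → deriv (fun s => f (x, s)) s = _ :=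
    der (fun s hs => e0 x s hx' hs) fun s hs => dy hf h₁ h₂ 0 0 hx' hs
  have e11 : f11 f (x, y) = _ := der (e1 y hy') (fun t ht => dx hf h₁ h₂ 1 0 ht hy') x hx'
  have e12 : f12 f (x, y) = _ :=
    der (fun s hs => e1 s hs x hx') (fun s hs => dy hf h₁ h₂ 1 0 hx' hs) y hy'
  have e22 : f22 f (x, y) = _ := der e2 (fun s hs => dy hf h₁ h₂ 0 1 hx' hs) y hy'
  have node : ∀ k ≤ n, ‖(k / n : ℂ)‖ ≤ 1 := fun k hk => by
    rw [norm_div, Complex.norm_natCast, Complex.norm_natCast]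
    exact div_le_one_of_le₀ (by exact_mod_cast hk) (by positivity)
  have hB : HasSum (fun p : ℕ × ℕ => a p * B n (fun v => v.1 ^ p.1 * v.2 ^ p.2) (x, y))
      (B n f (x, y)) := by
    simp only [B, mul_sum]
    refine hasSum_sum fun k hk => hasSum_sum fun j hj => ?_
    rw [mem_range] at hk hj
    simpa only [mul_assoc, mul_left_comm (W _ _ _ _)] using (hf (k / n, j / n)
      ((node k (by omega)).trans_lt h₁) ((node j (by omega)).trans_lt h₂)).mul_left (W n (x, y) k j)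
  have H := (hB.sub (hf (x, y) hx' hy')).sub
    ((((((sm hf h₁ h₂ 2 0 hx' hy').hasSum.mul_left (x * (1 - x))).sub
      ((sm hf h₁ h₂ 1 1 hx' hy').hasSum.mul_left (2 * x * y))).add
      ((sm hf h₁ h₂ 0 2 hx' hy').hasSum.mul_left (y * (1 - y)))).mul_left (1 / (2 * n : ℂ))))
  rw [E, e11, e12, e22, mul_div_right_comm]
  refine H.norm_le_of_bounded (S4.hasSum.mul_left _) fun p => ?_
  refine le_trans (le_of_eq ?_) ((mul_le_mul_of_nonneg_left (est hn p.1 p.2 r1 s1 hx hy)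
    (norm_nonneg (a p))).trans_eq (mul_left_comm _ _ _))
  rw [← norm_mul]
  congr 1
  ring

end Pool.Agent.Results.MP_814f17_an.Voron
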